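import Mathlib
import Pool.Agent.H53.AP.Fin

/-!
MP_10cdc7_ag, Q1: for a free double cover of a 2-connected metric graph, the Abel-Prym map `Ψ₁` is
injective if it is finite (it is not necessary to assume that the cover is not hyperelliptic).

The definitions are in `Pool.Agent.H53.AP.Defs`:
* `MetricGraph V E`: a model of a metric graph with vertices `V` and edges `E` (starting point `src`, end
  point `tgt`, length `len > 0` of each edge; loops and multiple edges are allowed);
* `G.Point`: its points (vertices, and an edge with a number strictly between 0 and its length);
* `G.incidence`: the bipartite graph of the vertices and edges; `G.IsConnected`: it is connected;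
  `G.IsTwoConnected`: it remains connected if any vertex or any edge is removed;
* `G.IsPrincipal D`: `D` is the divisor of a piecewise linear function with integer slopes;
* `G.cover sw`: the free double cover which is given by `sw : E → Bool` (two copies of each vertex and
  each edge; the copies of `e` change the sheet if `sw e = true`), and `swap` is the involution `ι`;
* `SameClass x y`: `(x - ι x) - (y - ι y)` is principal, that is, `Ψ₁ x = Ψ₁ y`.
-/

set_option autoImplicit false

namespace Pool.Agent.Results.MP_10cdc7_ag.AbelPrymInjective

open Pool.Agent.H53.AP

/-- Let `Γ̃ → Γ` be a free double cover of metric graphs (`Γ` has the finite model `G`), where `Γ̃` is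
connected and `Γ` is 2-connected. If all fibres of `Ψ₁` are finite, then `Ψ₁` is injective. -/
theorem result {V E : Type} [Finite V] [Fintype E] (G : MetricGraph V E) (sw : E → Bool)
    (hconn : (G.cover sw).IsConnected) (h2 : G.IsTwoConnected)
    (hfin : ∀ y : (G.cover sw).Point, {x : (G.cover sw).Point | SameClass x y}.Finite) :
    ∀ x y : (G.cover sw).Point, SameClass x y → x = y := by
  classical
  have : Fintype V := Fintype.ofFinite V
  intro x y hxy
  by_contra hne
  obtain ⟨z, hz⟩ := full_case (good_of G sw hconn h2) hxy hne
  exact hz (hfin z)

end Pool.Agent.Results.MP_10cdc7_ag.AbelPrymInjective
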